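import Pool.Agent.helper25.EN.Spec

set_option autoImplicit false

namespace EN

open Finset Real

private lemma TLS_pos {m : ℕ} {Q : Om m → ℝ} (hQ : Law Q) {x : Om m} (hx : 0 < Q x) (C : Finset (Fin m)) : 0 < w Q C x := by
  refine lt_of_lt_of_le hx ?_
  unfold w
  exact Finset.single_le_sum (f := Q) (fun y _ => hQ.1 y) (mem_filter.2 ⟨mem_univ _, fun _ _ => rfl⟩)

theorem TLS (acp : ACP_stmt) : TLS_stmt := by
  have _ := acp
  intro m Q hQ x hx S S' hS
  have main : ∀ n : ℕ, ∀ S' : Finset (Fin m), S ⊆ S' → #(S' \ S) = n →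
      log (w Q S' x) = log (w Q S x) + ∑ v ∈ S' \ S, log (a Q (S ∪ (S' ∩ pa v)) v x) := by
    intro n
    induction n with
    | zero =>
      intro S' hS hn
      have h1 : S' \ S = ∅ := card_eq_zero.1 hn
      have h2 : S' = S := Finset.Subset.antisymm (sdiff_eq_empty_iff_subset.1 h1) hS
      rw [h1, h2]
      simp
    | succ n ih =>
      intro S' hS hn
      have hne : (S' \ S).Nonempty := card_pos.1 (by omega)
      obtain ⟨v, hv, hmax⟩ : ∃ v ∈ S' \ S, ∀ u ∈ S' \ S, u ≤ v :=
        ⟨(S' \ S).max' hne, max'_mem _ _, fun u hu => le_max' _ _ hu⟩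
      have hv1 : v ∈ S' := (mem_sdiff.1 hv).1
      have hv2 : v ∉ S := (mem_sdiff.1 hv).2
      have hS2 : S ⊆ S'.erase v := fun u hu => mem_erase.2 ⟨fun h => hv2 (h ▸ hu), hS hu⟩
      have e : S'.erase v \ S = (S' \ S).erase v := by
        ext u
        simp only [mem_sdiff, mem_erase]
        tauto
      have h1 := ih (S'.erase v) hS2 (by rw [e, card_erase_of_mem hv]; omega)
      rw [e] at h1
      rw [← Finset.add_sum_erase _ _ hv]
      have h2 : ∑ u ∈ (S' \ S).erase v, log (a Q (S ∪ (S'.erase v ∩ pa u)) u x) = ∑ u ∈ (S' \ S).erase v, log (a Q (S ∪ (S' ∩ pa u)) u x) := by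
        apply Finset.sum_congr rfl
        intro u hu
        rw [mem_erase] at hu
        have h3 : u ≤ v := hmax u hu.2
        have h4 : S'.erase v ∩ pa u = S' ∩ pa u := by
          ext y
          simp only [mem_inter, mem_erase, pa, mem_filter, mem_univ, true_and]
          constructor
          · rintro ⟨⟨-, h5⟩, h6⟩
            exact ⟨h5, h6⟩
          · rintro ⟨h5, h6⟩
            exact ⟨⟨fun h7 => absurd (h7 ▸ h6) (not_lt.2 h3), h5⟩, h6⟩
        rw [h4]
      rw [h2] at h1
      have h5 : S ∪ (S' ∩ pa v) = S'.erase v := by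
        ext y
        simp only [mem_union, mem_inter, mem_erase, pa, mem_filter, mem_univ, true_and]
        constructor
        · rintro (h6 | ⟨h6, h7⟩)
          · exact ⟨fun h8 => hv2 (h8 ▸ h6), hS h6⟩
          · exact ⟨ne_of_lt h7, h6⟩
        · rintro ⟨h6, h7⟩
          by_cases h8 : y ∈ S
          · exact Or.inl h8
          · exact Or.inr ⟨h7, lt_of_le_of_ne (hmax y (mem_sdiff.2 ⟨h7, h8⟩)) h6⟩
      have h6 : log (a Q (S ∪ (S' ∩ pa v)) v x) = log (w Q S' x) - log (w Q (S'.erase v) x) := by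
        rw [h5]
        unfold a
        rw [insert_erase hv1, log_div (TLS_pos hQ hx _).ne' (TLS_pos hQ hx _).ne']
      rw [h6]
      linarith
  exact main _ S' hS rfl

end EN
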