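import Pool.Agent.helper25.EN.SpecV

set_option autoImplicit false

namespace TP.TW

open DP MeasureTheory Finset

private instance DRd_prob : IsProbabilityMeasure P1 := by
  unfold P1
  infer_instance

private lemma DRd_mono {F G : Set (V → Bool)} (h : F ⊆ G) : Pr F ≤ Pr G := measureReal_mono h

private lemma DRd_nonneg (F : Set (V → Bool)) : 0 ≤ Pr F := measureReal_nonneg

private lemma DRd_one (F : Set (V → Bool)) : Pr F ≤ 1 := measureReal_le_one

private lemma DRd_dep {S : ℕ → (V → Bool) → Finset V} {Ω : Finset V} (hS : VRo S Ω) (i : ℕ) :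
    ∀ β β' : V → Bool, (∀ v ∈ Ω, β v = β' v) → S i β = S i β' := by
  induction i with
  | zero => intro β β' _; rw [hS.1, hS.1]
  | succ i _ =>
    intro β β' h
    exact (hS.2.2.2 i β β' (fun v hv => (h v (hS.2.2.1 i β hv)).symm)).symm

private lemma DRd_step {S : ℕ → (V → Bool) → Finset V} {Ω : Finset V} (hS : VRo S Ω) (R i : ℕ) (β β' : V → Bool)
    (h : ∀ v ∈ S (min i (R + 1)) β, β' v = β v) : S (min (i + 1) (R + 1)) β' = S (min (i + 1) (R + 1)) β := by
  by_cases hi : i ≤ R
  · have h1 : min i (R + 1) = i := by omega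
    have h2 : min (i + 1) (R + 1) = i + 1 := by omega
    rw [h1] at h
    rw [h2]
    exact hS.2.2.2 i β β' h
  · have h1 : min i (R + 1) = R + 1 := by omega
    have h2 : min (i + 1) (R + 1) = R + 1 := by omega
    rw [h1] at h
    rw [h2]
    exact hS.2.2.2 R β β' (fun v hv => h v (hS.2.1 R β hv))

private lemma DRd_mon {S : ℕ → (V → Bool) → Finset V} {Ω : Finset V} (hS : VRo S Ω) {i j : ℕ} (h : i ≤ j) (β : V → Bool) :
    S i β ⊆ S j β := by
  induction h with
  | refl => exact Finset.Subset.refl _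
  | step _ ih => exact ih.trans (hS.2.1 _ β)

private lemma DRd_enum (W : Finset V) : ∃ (m : ℕ) (ε : Fin m → V) (xt : (Fin m → Bool) → V → Bool), Function.Injective ε ∧
    (∀ v ∈ W, ∃ j, ε j = v) ∧ ∀ x j, xt x (ε j) = x j := by
  classical
  refine ⟨#W, fun i => (W.equivFin.symm i).1, fun x v => if h : v ∈ W then x (W.equivFin ⟨v, h⟩) else false, ?_, ?_, ?_⟩
  · intro i j h
    exact W.equivFin.symm.injective (Subtype.ext h)
  · intro v hv
    exact ⟨W.equivFin ⟨v, hv⟩, by simp only [Equiv.symm_apply_apply]⟩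
  · intro x j
    have h1 : (W.equivFin.symm j).1 ∈ W := (W.equivFin.symm j).2
    simp only [h1, dite_true]
    congr 1
    exact W.equivFin.apply_symm_apply j

theorem DR (ent : EN.ENT_stmt) (prn : PRN_stmt) (shp : SHP_stmt) : DR_stmt := by
  classical
  intro R
  obtain ⟨C, hC, hent⟩ := ent R
  refine ⟨C, hC, ?_⟩
  intro Ω S hbr hS
  refine ⟨hbr, fun β => hS.2.2.1 _ β, ⟨Ω, DRd_dep hS _⟩, fun v => DRd_nonneg _, ?_, hC.le, ?_⟩
  · intro v hv
    have h1 : {β : V → Bool | v ∈ S (R + 1) β} = ∅ := by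
      ext β
      simp only [Set.mem_setOf_eq, Set.mem_empty_iff_false, iff_false]
      exact fun h => hv (hS.2.2.1 _ β h)
    show Pr {β : V → Bool | v ∈ S (R + 1) β} = 0
    rw [h1]
    exact measureReal_empty
  · intro T U Λ z E hE hU
    obtain ⟨sh, hsh⟩ : ∃ sh : V → (V → Bool) → V → Bool, sh = fun τ β v => β (v.1 + τ.1, v.2 + τ.2) := ⟨_, rfl⟩
    have hsh' : ∀ (τ : V) (β : V → Bool), (fun v : V => β (v.1 + τ.1, v.2 + τ.2)) = sh τ β := by
      intro τ β
      rw [hsh]
    rcases (DRd_nonneg E).eq_or_lt with h0 | hpos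
    · have h1 : ∀ τ ∈ T, Pr (E ∩ {β | (z.1 - τ.1, z.2 - τ.2) ∈ S (R + 1) (fun v => β (v.1 + τ.1, v.2 + τ.2))}) ≤ 0 :=
        fun τ _ => (DRd_mono Set.inter_subset_left).trans h0.symm.le
      refine (Finset.sum_nonpos h1).trans ?_
      rw [← h0]
      simp
    · obtain ⟨m, ε, xt, hinj, hsur, hxt⟩ := DRd_enum (insert z (Λ ∪ T.biUnion fun τ => Ω.image fun v => (v.1 + τ.1, v.2 + τ.2)))
      obtain ⟨z', hz'⟩ : ∃ j, ε j = z := hsur z (mem_insert_self _ _)
      have hΛ : ∀ v ∈ Λ, ∃ j, ε j = v := fun v hv => hsur v (mem_insert_of_mem (mem_union_left _ hv))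
      have hΩ : ∀ τ ∈ T, ∀ v ∈ Ω, ∃ j, ε j = (v.1 + τ.1, v.2 + τ.2) := fun τ hτ v hv =>
        hsur _ (mem_insert_of_mem (mem_union_right _ (mem_biUnion.2 ⟨τ, hτ, mem_image.2 ⟨v, hv, rfl⟩⟩)))
      have hPr : ∀ G : Set (V → Bool), (∀ β : V → Bool, xt (fun i => β (ε i)) ∈ G ↔ β ∈ G) →
          Pr G = (#{x : Fin m → Bool | xt x ∈ G} : ℝ) / 2 ^ m := by
        intro G hG
        have h1 := prn m ε hinj (fun x => xt x ∈ G)
        have h2 : G = {β : V → Bool | xt (fun i => β (ε i)) ∈ G} := by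
          ext β
          exact (hG β).symm
        refine (congrArg Pr h2).trans (h1.trans ?_)
        apply congrArg (fun k : ℕ => (k : ℝ) / 2 ^ m)
        apply congrArg
        ext x
        simp only [mem_filter]
      have hxE : ∀ β : V → Bool, xt (fun i => β (ε i)) ∈ E ↔ β ∈ E := fun β => hE _ _ (fun v hv => by
        obtain ⟨j, hj⟩ := hΛ v hv
        rw [← hj, hxt])
      have hshift : ∀ τ ∈ T, ∀ (i : ℕ) (β : V → Bool), S i (sh τ (xt (fun i => β (ε i)))) = S i (sh τ β) := by
        intro τ hτ i β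
        apply DRd_dep hS
        intro v hv
        obtain ⟨j, hj⟩ := hΩ τ hτ v hv
        rw [hsh]
        show xt _ (v.1 + τ.1, v.2 + τ.2) = β (v.1 + τ.1, v.2 + τ.2)
        rw [← hj, hxt]
      obtain ⟨S', hS'⟩ : ∃ S' : V → ℕ → EN.Om m → Finset (Fin m), ∀ τ i x j, j ∈ S' τ i x ↔
          ((ε j).1 - τ.1, (ε j).2 - τ.2) ∈ S (min i (R + 1)) (sh τ (xt x)) :=
        ⟨fun τ i x => univ.filter (fun j => ((ε j).1 - τ.1, (ε j).2 - τ.2) ∈ S (min i (R + 1)) (sh τ (xt x))), fun τ i x j => by
          simp only [mem_filter, mem_univ, true_and]⟩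
      have hRounds : ∀ τ ∈ T, EN.Rounds (S' τ) := by
        intro τ hτ
        refine ⟨?_, ?_⟩
        · intro x
          ext j
          rw [hS' τ 0 x j]
          have h1 : min 0 (R + 1) = 0 := by omega
          rw [h1, hS.1]
          simp
        · intro i x
          refine ⟨?_, ?_⟩
          · intro j hj
            rw [hS'] at hj ⊢
            exact DRd_mon hS (by omega) _ hj
          · intro y hy
            have h1 : S (min (i + 1) (R + 1)) (sh τ (xt y)) = S (min (i + 1) (R + 1)) (sh τ (xt x)) := by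
              apply DRd_step hS
              intro v hv
              obtain ⟨j, hj⟩ := hΩ τ hτ v (hS.2.2.1 _ _ hv)
              have h2 : j ∈ S' τ i x := by
                rw [hS', hj]
                have h3 : (v.1 + τ.1 - τ.1, v.2 + τ.2 - τ.2) = v := by simp
                rw [h3]
                exact hv
              have h4 := hy j h2
              rw [hsh]
              show xt y (v.1 + τ.1, v.2 + τ.2) = xt x (v.1 + τ.1, v.2 + τ.2)
              rw [← hj, hxt, hxt, h4]
            ext j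
            rw [hS', hS', h1]
      obtain ⟨q, hq⟩ : ∃ q : ℝ, q = Pr E := ⟨_, rfl⟩
      rw [← hq] at hpos
      have hq1 : q ≤ 1 := by rw [hq]; exact DRd_one E
      have hqE : q = (#{x : Fin m → Bool | xt x ∈ E} : ℝ) / 2 ^ m := by rw [hq]; exact hPr E hxE
      obtain ⟨Q, hQ⟩ : ∃ Q : EN.Om m → ℝ, Q = fun x => if xt x ∈ E then 1 / (2 ^ m * q) else 0 := ⟨_, rfl⟩
      have h2m : (0 : ℝ) < 2 ^ m := by positivity
      have hLaw : EN.Law Q := by
        refine ⟨?_, ?_⟩
        · intro x
          rw [hQ]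
          dsimp only
          split_ifs
          · positivity
          · exact le_rfl
        · rw [hQ, ← Finset.sum_filter, Finset.sum_const, nsmul_eq_mul]
          have h1 : (#{x : Fin m → Bool | xt x ∈ E} : ℝ) = q * 2 ^ m := by
            rw [hqE]
            field_simp
          rw [h1]
          field_simp
      have hdep : ∀ x y : EN.Om m, (∀ u ∈ univ.filter (fun j => ε j ∈ Λ), x u = y u) → Q x = Q y := by
        intro x y hxy
        have h1 : xt x ∈ E ↔ xt y ∈ E := hE _ _ (fun v hv => by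
          obtain ⟨j, hj⟩ := hΛ v hv
          rw [← hj, hxt, hxt]
          apply hxy
          rw [mem_filter, hj]
          exact ⟨mem_univ _, hv⟩)
        rw [hQ]
        dsimp only
        by_cases h2 : xt x ∈ E
        · rw [if_pos h2, if_pos (h1.1 h2)]
        · rw [if_neg h2, if_neg (fun h => h2 (h1.2 h))]
      have hL : 0 ≤ Real.log (1 / q) := Real.log_nonneg (by rw [le_div_iff₀ hpos]; linarith)
      have hQL : ∀ x, Q x ≤ Real.exp (Real.log (1 / q)) / 2 ^ m := by
        intro x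
        rw [Real.exp_log (by positivity), hQ]
        dsimp only
        split_ifs
        · apply le_of_eq
          field_simp
        · positivity
      have hinjτ : ∀ v : V, Function.Injective fun τ : V => (v.1 - τ.1, v.2 - τ.2) := by
        intro v τ τ' h
        simp only [Prod.mk.injEq] at h
        ext
        · linarith [h.1]
        · linarith [h.2]
      have hN : ∀ i : ℕ, ∀ v ∈ insert z' (univ.filter (fun j => ε j ∈ Λ)),
          ∑ τ ∈ T, (#{x : EN.Om m | v ∈ S' τ i x} : ℝ) / 2 ^ m ≤ ∑ u ∈ U, Pr {β | u ∈ S (R + 1) β} := by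
        intro i v hv
        have hv0 : ε v ∈ insert z Λ := by
          rw [mem_insert] at hv ⊢
          rcases hv with h | h
          · left
            rw [h, hz']
          · right
            exact (mem_filter.1 h).2
        have h1 : ∀ τ ∈ T, (#{x : EN.Om m | v ∈ S' τ i x} : ℝ) / 2 ^ m ≤ Pr {β | ((ε v).1 - τ.1, (ε v).2 - τ.2) ∈ S (R + 1) β} := by
          intro τ hτ
          have h2 : (#{x : EN.Om m | v ∈ S' τ i x} : ℝ) / 2 ^ m = Pr {β | ((ε v).1 - τ.1, (ε v).2 - τ.2) ∈ S (min i (R + 1)) (sh τ β)} := by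
            rw [hPr {β | ((ε v).1 - τ.1, (ε v).2 - τ.2) ∈ S (min i (R + 1)) (sh τ β)} (fun β => by
              simp only [Set.mem_setOf_eq]
              rw [hshift τ hτ])]
            apply congrArg (fun k : ℕ => (k : ℝ) / 2 ^ m)
            apply congrArg
            ext x
            simp only [mem_filter, mem_univ, true_and, Set.mem_setOf_eq]
            exact hS' τ i x v
          have h3 : {β : V → Bool | ((ε v).1 - τ.1, (ε v).2 - τ.2) ∈ S (min i (R + 1)) (sh τ β)} ⊆
              {β : V → Bool | (fun v : V => β (v.1 + τ.1, v.2 + τ.2)) ∈ {β : V → Bool | ((ε v).1 - τ.1, (ε v).2 - τ.2) ∈ S (R + 1) β}} := by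
            intro β hβ
            simp only [Set.mem_setOf_eq] at hβ ⊢
            rw [hsh']
            exact DRd_mon hS (by omega) _ hβ
          have h4 := shp {β : V → Bool | ((ε v).1 - τ.1, (ε v).2 - τ.2) ∈ S (R + 1) β} Ω (fun b b' hb => by
            simp only [Set.mem_setOf_eq]
            rw [DRd_dep hS (R + 1) b b' hb]) τ.1 τ.2
          rw [h2, ← h4]
          exact DRd_mono h3
        refine (Finset.sum_le_sum h1).trans ?_
        have h5 : ∑ τ ∈ T, Pr {β | ((ε v).1 - τ.1, (ε v).2 - τ.2) ∈ S (R + 1) β} =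
            ∑ u ∈ T.image (fun τ : V => ((ε v).1 - τ.1, (ε v).2 - τ.2)), Pr {β | u ∈ S (R + 1) β} := by
          rw [Finset.sum_image (fun a _ b _ h => hinjτ (ε v) h)]
        rw [h5]
        apply Finset.sum_le_sum_of_subset_of_nonneg
        · intro u hu
          obtain ⟨τ, hτ, rfl⟩ := mem_image.1 hu
          exact hU _ hv0 τ hτ
        · intro u _ _
          exact DRd_nonneg _
      have main := hent m V T S' (univ.filter (fun j => ε j ∈ Λ)) z' (∑ u ∈ U, Pr {β | u ∈ S (R + 1) β}) hRounds hN Q (Real.log (1 / q)) hLaw hdep hL hQL z' (mem_insert_self _ _)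
      have harith : ∀ A M : ℝ, 0 < M → A / M = q * (A * (1 / (M * q))) := by
        intro A M hM
        have h1 : q ≠ 0 := hpos.ne'
        field_simp
      have hterm : ∀ τ ∈ T, Pr (E ∩ {β | (z.1 - τ.1, z.2 - τ.2) ∈ S (R + 1) (fun v => β (v.1 + τ.1, v.2 + τ.2))}) =
          q * ∑ x with z' ∈ S' τ (R + 1) x, Q x := by
        intro τ hτ
        obtain ⟨G0, hG0⟩ : ∃ G0 : Set (V → Bool), G0 = E ∩ {β | (z.1 - τ.1, z.2 - τ.2) ∈ S (R + 1) (fun v => β (v.1 + τ.1, v.2 + τ.2))} := ⟨_, rfl⟩
        have hmem : ∀ β, β ∈ G0 ↔ β ∈ E ∧ (z.1 - τ.1, z.2 - τ.2) ∈ S (R + 1) (sh τ β) := by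
          intro β
          rw [hG0, Set.mem_inter_iff, Set.mem_setOf_eq, hsh']
        have h1 : Pr G0 = (#{x : Fin m → Bool | xt x ∈ G0} : ℝ) / 2 ^ m := by
          apply hPr G0
          intro β
          rw [hmem, hmem, hshift τ hτ, hxE]
        have h2 : ∑ x with z' ∈ S' τ (R + 1) x, Q x = (#{x : Fin m → Bool | xt x ∈ G0} : ℝ) * (1 / (2 ^ m * q)) := by
          rw [← nsmul_eq_mul, ← Finset.sum_const, Finset.sum_filter, Finset.sum_filter]
          apply Finset.sum_congr rfl
          intro x _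
          have h3 : xt x ∈ G0 ↔ xt x ∈ E ∧ z' ∈ S' τ (R + 1) x := by
            rw [hmem, hS', hz', min_self]
          rw [hQ]
          dsimp only
          by_cases h4 : xt x ∈ E
          · by_cases h5 : z' ∈ S' τ (R + 1) x
            · rw [if_pos h5, if_pos h4, if_pos (h3.2 ⟨h4, h5⟩)]
            · rw [if_neg h5, if_neg (fun h => h5 (h3.1 h).2)]
          · rw [if_neg (fun h => h4 (h3.1 h).1), if_neg h4, ite_self]
        rw [← hG0, h1, h2]
        exact harith _ _ h2m
      rw [Finset.sum_congr rfl hterm, ← Finset.mul_sum, ← hq]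
      have hcard : #(univ.filter (fun j => ε j ∈ Λ)) ≤ #Λ := by
        apply Finset.card_le_card_of_injOn ε
        · intro j hj
          exact Finset.mem_coe.2 (mem_filter.1 (Finset.mem_coe.1 hj)).2
        · exact hinj.injOn
      have hc0 : (0 : ℝ) ≤ #(univ.filter (fun j => ε j ∈ Λ)) := Nat.cast_nonneg _
      have hcT : (0 : ℝ) ≤ #T := Nat.cast_nonneg _
      have hc1 : (#(univ.filter (fun j => ε j ∈ Λ)) : ℝ) ≤ #Λ := by exact_mod_cast hcard
      have hlog : Real.log (#(univ.filter (fun j => ε j ∈ Λ)) + 3) ≤ Real.log (#T + #Λ + 3) :=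
        Real.log_le_log (by linarith) (by linarith)
      have hlog0 : 0 ≤ Real.log (#(univ.filter (fun j => ε j ∈ Λ)) + 3) := Real.log_nonneg (by linarith)
      have hpow : (Real.log (1 / q) + Real.log (#(univ.filter (fun j => ε j ∈ Λ)) + 3)) ^ R ≤
          (Real.log (1 / q) + Real.log (#T + #Λ + 3)) ^ R := by
        apply pow_le_pow_left₀
        · linarith
        · linarith
      have hN0 : 0 ≤ ∑ u ∈ U, Pr {β | u ∈ S (R + 1) β} := Finset.sum_nonneg (fun u _ => DRd_nonneg _)
      have s1 := mul_le_mul_of_nonneg_left main hpos.le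
      have s2 := mul_le_mul_of_nonneg_left hpow (mul_nonneg hpos.le (mul_nonneg hC.le hN0))
      calc q * ∑ τ ∈ T, ∑ x with z' ∈ S' τ (R + 1) x, Q x ≤ q * (C * (∑ u ∈ U, Pr {β | u ∈ S (R + 1) β}) *
            (Real.log (1 / q) + Real.log (#(univ.filter (fun j => ε j ∈ Λ)) + 3)) ^ R) := s1
        _ = q * (C * (∑ u ∈ U, Pr {β | u ∈ S (R + 1) β})) *
            (Real.log (1 / q) + Real.log (#(univ.filter (fun j => ε j ∈ Λ)) + 3)) ^ R := by ring
        _ ≤ q * (C * (∑ u ∈ U, Pr {β | u ∈ S (R + 1) β})) * (Real.log (1 / q) + Real.log (#T + #Λ + 3)) ^ R := s2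
        _ = C * q * (Real.log (1 / q) + Real.log (#T + #Λ + 3)) ^ R * ∑ u ∈ U, Pr {β | u ∈ S (R + 1) β} := by ring

end TP.TW
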